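import Mathlib

/-! Property (LR) and central direct factors: averaging. -/

set_option autoImplicit false

namespace Pool.Agent.W881.LRX

open scoped IsMulCommutative

variable {G : Type*} [Group G]

/-- the conjugate of `φ` -/
def cj (K A : Subgroup G) [hK : K.Normal] [hA : A.Normal] (φ : K →* A) (g : G) (x : K) : A :=
  ⟨g * (φ ⟨g⁻¹ * x * g, by
      have := hK.conj_mem x x.2 g⁻¹
      rwa [inv_inv] at this⟩ : G) * g⁻¹, hA.conj_mem _ (φ _).2 g⟩

theorem cj_mul (K A : Subgroup G) [hK : K.Normal] [hA : A.Normal] (φ : K →* A) (g : G)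
    (x y : K) : cj K A φ g (x * y) = cj K A φ g x * cj K A φ g y := by
  apply Subtype.ext
  unfold cj
  have e : (⟨g⁻¹ * ((x * y : K) : G) * g, by
      have := hK.conj_mem (x * y : K) (x * y).2 g⁻¹
      rwa [inv_inv] at this⟩ : K) = ⟨g⁻¹ * x * g, by
      have := hK.conj_mem x x.2 g⁻¹
      rwa [inv_inv] at this⟩ * ⟨g⁻¹ * y * g, by
      have := hK.conj_mem y y.2 g⁻¹
      rwa [inv_inv] at this⟩ := by
    apply Subtype.ext
    push_cast
    group
  show g * (φ _ : G) * g⁻¹ = (g * (φ _ : G) * g⁻¹) * (g * (φ _ : G) * g⁻¹)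
  rw [e, map_mul]
  push_cast
  group

/-- dependence on the coset -/
theorem cj_coset (K A : Subgroup G) [hK : K.Normal] [hA : A.Normal]
    (hc : ∀ k ∈ K, ∀ a ∈ A, k * a = a * k) (hAK : A ≤ K) (φ : K →* A) (g k : G) (hk : k ∈ K)
    (x : K) : cj K A φ (g * k) x = cj K A φ g x := by
  apply Subtype.ext
  have hg : g⁻¹ * x * g ∈ K := by
    have := hK.conj_mem x x.2 g⁻¹
    rwa [inv_inv] at this
  have e : (⟨(g * k)⁻¹ * x * (g * k), by
      have := hK.conj_mem x x.2 (g * k)⁻¹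
      rwa [inv_inv] at this⟩ : K) = (⟨k, hk⟩ : K)⁻¹ * ⟨g⁻¹ * x * g, hg⟩ * ⟨k, hk⟩ := by
    apply Subtype.ext
    push_cast
    group
  show (g * k) * (φ _ : G) * (g * k)⁻¹ = g * (φ _ : G) * g⁻¹
  rw [e, map_mul, map_mul, map_inv]
  have hcomm : ∀ a b : A, a * b = b * a := by
    intro a b
    apply Subtype.ext
    exact hc a (hAK a.2) b b.2
  have e2 : (φ ⟨k, hk⟩)⁻¹ * φ ⟨g⁻¹ * x * g, hg⟩ * φ ⟨k, hk⟩ = φ ⟨g⁻¹ * x * g, hg⟩ := by
    rw [hcomm (φ ⟨k, hk⟩)⁻¹, mul_assoc, inv_mul_cancel, mul_one]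
  rw [e2]
  have e3 := hc k hk _ (φ ⟨g⁻¹ * x * g, hg⟩).2
  have e4 : (g * k) * (φ ⟨g⁻¹ * x * g, hg⟩ : G) * (g * k)⁻¹ =
      g * (k * (φ ⟨g⁻¹ * x * g, hg⟩ : G)) * k⁻¹ * g⁻¹ := by group
  rw [e4, e3]
  group

theorem cj_conj (K A : Subgroup G) [hK : K.Normal] [hA : A.Normal] (φ : K →* A) (g y : G)
    (x x' : K) (hx : (x' : G) = y * x * y⁻¹) :
    (cj K A φ (y * g) x' : G) = y * (cj K A φ g x : G) * y⁻¹ := by
  have e : (⟨(y * g)⁻¹ * x' * (y * g), by
      have := hK.conj_mem x' x'.2 (y * g)⁻¹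
      rwa [inv_inv] at this⟩ : K) = ⟨g⁻¹ * x * g, by
      have := hK.conj_mem x x.2 g⁻¹
      rwa [inv_inv] at this⟩ := by
    apply Subtype.ext
    show (y * g)⁻¹ * x' * (y * g) = g⁻¹ * x * g
    rw [hx]
    group
  show (y * g) * (φ _ : G) * (y * g)⁻¹ = y * (g * (φ _ : G) * g⁻¹) * y⁻¹
  rw [e]
  group

/-- The averaging lemma. -/
theorem avg (K A : Subgroup G) [hK : K.Normal] [hA : A.Normal] [hfi : K.FiniteIndex]
    (hc : ∀ k ∈ K, ∀ a ∈ A, k * a = a * k) (hAK : A ≤ K) (φ : K →* A) (e : ℕ) (he : 0 < e)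
    (hφ : ∀ (a : G) (ha : a ∈ A), (φ ⟨a, hAK ha⟩ : G) = a ^ e) :
    ∃ (Φ : K →* A) (e' : ℕ), 0 < e' ∧ (∀ (a : G) (ha : a ∈ A), (Φ ⟨a, hAK ha⟩ : G) = a ^ e') ∧
      ∀ (y : G) (x x' : K), (x' : G) = y * x * y⁻¹ → (Φ x' : G) = y * (Φ x : G) * y⁻¹ := by
  classical
  have hcomm : IsMulCommutative A := by
    constructor
    constructor
    intro a b
    apply Subtype.ext
    exact hc a (hAK a.2) b b.2
  have : Fintype (G ⧸ K) := Subgroup.fintypeQuotientOfFiniteIndex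
  have hout : ∀ (y : G) (q : G ⧸ K), ∃ k ∈ K, (((y : G ⧸ K) * q).out) = y * q.out * k := by
    intro y q
    have h1 : (((y * q.out : G)) : G ⧸ K) = (((y : G ⧸ K) * q).out : G) := by
      rw [QuotientGroup.mk_mul, QuotientGroup.out_eq', QuotientGroup.out_eq']
    refine ⟨(y * q.out)⁻¹ * ((y : G ⧸ K) * q).out, QuotientGroup.eq.1 h1, ?_⟩
    group
  refine ⟨{ toFun := fun x => ∏ q : G ⧸ K, cj K A φ q.out x
            map_one' := ?_
            map_mul' := ?_ }, e * Fintype.card (G ⧸ K), ?_, ?_, ?_⟩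
  · apply Finset.prod_eq_one
    intro q _
    have h1 := cj_mul K A φ q.out 1 1
    rw [one_mul] at h1
    exact (mul_eq_left.1 h1.symm)
  · intro x y
    rw [← Finset.prod_mul_distrib]
    exact Finset.prod_congr rfl (fun q _ => cj_mul K A φ q.out x y)
  · exact Nat.mul_pos he Fintype.card_pos
  · intro a ha
    have h1 : ∀ q : G ⧸ K, cj K A φ q.out ⟨a, hAK ha⟩ = (⟨a, ha⟩ : A) ^ e := by
      intro q
      apply Subtype.ext
      have h2 : (q.out)⁻¹ * a * q.out ∈ A := by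
        have := hA.conj_mem a ha (q.out)⁻¹
        rwa [inv_inv] at this
      have h3 := hφ _ h2
      show q.out * (φ ⟨(q.out)⁻¹ * a * q.out, _⟩ : G) * (q.out)⁻¹ = (((⟨a, ha⟩ : A) ^ e : A) : G)
      rw [h3]
      have h4 : ((q.out)⁻¹ * a * q.out) ^ e = (q.out)⁻¹ * a ^ e * q.out := by
        have := conj_pow (a := (q.out)⁻¹) (b := a) (i := e)
        rw [inv_inv] at this
        exact this
      rw [h4]
      push_cast
      group
    show ((∏ q : G ⧸ K, cj K A φ q.out ⟨a, hAK ha⟩ : A) : G) = a ^ (e * Fintype.card (G ⧸ K))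
    rw [Finset.prod_congr rfl (fun q _ => h1 q), Finset.prod_const, Finset.card_univ, ← pow_mul]
    push_cast
    rfl
  · intro y x x' hx
    let c : A →* A :=
      { toFun := fun a => ⟨y * a * y⁻¹, hA.conj_mem a a.2 y⟩
        map_one' := by
          apply Subtype.ext
          push_cast
          group
        map_mul' := fun a b => by
          apply Subtype.ext
          push_cast
          group }
    have h1 : ∏ q : G ⧸ K, cj K A φ q.out x' = c (∏ q : G ⧸ K, cj K A φ q.out x) := by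
      rw [map_prod]
      rw [← Fintype.prod_equiv (Equiv.mulLeft (y : G ⧸ K)) (fun q => c (cj K A φ q.out x))
        (fun q => cj K A φ q.out x')]
      intro q
      apply Subtype.ext
      obtain ⟨k, hk, e1⟩ := hout y q
      show y * (cj K A φ q.out x : G) * y⁻¹ = (cj K A φ ((y : G ⧸ K) * q).out x' : G)
      rw [e1, cj_coset K A hc hAK φ _ k hk, cj_conj K A φ q.out y x x' hx]
    show ((∏ q : G ⧸ K, cj K A φ q.out x' : A) : G) = _
    rw [h1]
    rfl

end Pool.Agent.W881.LRX
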