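import Mathlib

/-! Property (LR): subgroups of lattices. -/

set_option autoImplicit false

namespace Pool.Agent.W881.LRX

/-- finite cover by residues -/
theorem cover_pow (r : ℕ) (n : ℕ) (hn : 0 < n) :
    ∃ F : Set (Fin r → ℤ), F.Finite ∧ ∀ x, ∃ y ∈ F, ∃ z, x = y + n • z := by
  refine ⟨Set.pi Set.univ (fun _ => Set.Ico (0 : ℤ) n), Set.Finite.pi (fun _ => Set.finite_Ico _ _), ?_⟩
  intro x
  refine ⟨fun i => x i % n, ?_, fun i => x i / n, ?_⟩
  · intro i _
    have : (0 : ℤ) < n := by exact_mod_cast hn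
    exact ⟨Int.emod_nonneg _ this.ne', Int.emod_lt_of_pos _ this⟩
  · funext i
    simp only [Pi.add_apply, Pi.smul_apply, nsmul_eq_mul]
    exact (Int.emod_add_mul_ediv (x i) n).symm

/-- the projection -/
theorem proj (m : ℕ) (N : Submodule ℤ (Fin m → ℤ)) :
    ∃ (π : (Fin m → ℤ) →ₗ[ℤ] (Fin m → ℤ)) (f : ℕ), 0 < f ∧ (∀ x, π x ∈ N) ∧
      (∀ x ∈ N, π x = f • x) ∧
      ∀ n : ℕ, 0 < n → ∃ F : Set (Fin m → ℤ), F.Finite ∧ F ⊆ N ∧
        ∀ x ∈ N, ∃ y ∈ F, ∃ z ∈ N, x = y + n • z := by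
  classical
  obtain ⟨r, ⟨bM, bN, f, a, hsnf⟩⟩ := Submodule.smithNormalForm (Pi.basisFun ℤ (Fin m)) N
  have ha : ∀ i, a i ≠ 0 := by
    intro i h0
    have h1 := hsnf i
    rw [h0, zero_smul] at h1
    exact bN.ne_zero i (Subtype.ext h1)
  set P : ℤ := ∏ i, a i with hP
  have hP0 : P ≠ 0 := Finset.prod_ne_zero_iff.2 (fun i _ => ha i)
  have hdiv : ∀ i, a i * (P / a i) = P := fun i =>
    Int.mul_ediv_cancel' (Finset.dvd_prod_of_mem a (Finset.mem_univ i))
  set π0 : (Fin m → ℤ) →ₗ[ℤ] (Fin m → ℤ) := bM.constr ℤ (fun j =>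
    if h : ∃ i, f i = j then (P / a h.choose) • (bN h.choose : Fin m → ℤ) else 0) with hπ0
  have h1 : ∀ x, π0 x ∈ N := by
    intro x
    rw [hπ0, Module.Basis.constr_apply_fintype]
    apply Submodule.sum_mem
    intro j _
    apply Submodule.smul_mem
    split_ifs with h
    · exact Submodule.smul_mem _ _ (bN _).2
    · exact Submodule.zero_mem _
  have h2 : ∀ i, π0 (bN i : Fin m → ℤ) = P • (bN i : Fin m → ℤ) := by
    intro i
    have hex : ∃ i', f i' = f i := ⟨i, rfl⟩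
    have hch : hex.choose = i := f.injective hex.choose_spec
    have e1 : π0 (bM (f i)) = (P / a i) • (bN i : Fin m → ℤ) := by
      rw [hπ0, Module.Basis.constr_basis, dif_pos hex, hch]
    rw [hsnf i, map_smul, e1, smul_smul, hdiv i, ← hsnf i]
  have h3 : ∀ x : N, π0 (x : Fin m → ℤ) = P • (x : Fin m → ℤ) := by
    intro x
    have e : (π0.comp N.subtype) = P • N.subtype := by
      apply bN.ext
      intro i
      exact h2 i
    exact congrArg (fun g : N →ₗ[ℤ] (Fin m → ℤ) => g x) e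
  refine ⟨P • π0, (P * P).natAbs, Int.natAbs_pos.2 (mul_ne_zero hP0 hP0), ?_, ?_, ?_⟩
  · intro x
    exact N.smul_mem _ (h1 x)
  · intro x hx
    show P • π0 x = _
    rw [h3 ⟨x, hx⟩, smul_smul, ← natCast_zsmul]
    congr 1
    exact (Int.natAbs_of_nonneg (mul_self_nonneg P)).symm
  · intro n hn
    obtain ⟨F, hF, hF1⟩ := cover_pow r n hn
    refine ⟨(fun v => ((bN.equivFun.symm v : N) : Fin m → ℤ)) '' F, hF.image _, ?_, ?_⟩
    · rintro _ ⟨v, -, rfl⟩
      exact (bN.equivFun.symm v).2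
    · intro x hx
      obtain ⟨y, hy, z, hz⟩ := hF1 (bN.equivFun ⟨x, hx⟩)
      refine ⟨_, ⟨y, hy, rfl⟩, ((bN.equivFun.symm z : N) : Fin m → ℤ),
        (bN.equivFun.symm z).2, ?_⟩
      have e1 : (⟨x, hx⟩ : N) = bN.equivFun.symm y + n • bN.equivFun.symm z := by
        rw [← map_nsmul, ← map_add, ← hz, LinearEquiv.symm_apply_apply]
      have e2 := congrArg (fun w : N => (w : Fin m → ℤ)) e1
      simpa using e2

end Pool.Agent.W881.LRX
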