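import Pool.Agent.W881.LRX.Avg
import Pool.Agent.W881.LRX.Lat

/-! Property (LR): the core argument. -/

set_option autoImplicit false

namespace Pool.Agent.W881.LRX

variable {G : Type*} [Group G]

/-- virtual retracts -/
def VR (H : Subgroup G) : Prop :=
  ∃ K : Subgroup G, K.FiniteIndex ∧ H ≤ K ∧
    ∃ ρ : K →* G, (∀ k : K, ρ k ∈ H) ∧ ∀ h : G, ∀ hk : h ∈ K, h ∈ H → ρ ⟨h, hk⟩ = h

/-- the subgroup `H N` -/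
def Hm (H N : Subgroup G) (hn : ∀ h ∈ H, ∀ n ∈ N, h * n * h⁻¹ ∈ N) : Subgroup G where
  carrier := {x | ∃ h ∈ H, ∃ n ∈ N, x = h * n}
  mul_mem' := by
    rintro _ _ ⟨h, hh, n, hn1, rfl⟩ ⟨h', hh', n', hn', rfl⟩
    exact ⟨h * h', H.mul_mem hh hh', h'⁻¹ * n * h'⁻¹⁻¹ * n',
      N.mul_mem (hn _ (H.inv_mem hh') _ hn1) hn', by group⟩
  one_mem' := ⟨1, H.one_mem, 1, N.one_mem, by group⟩
  inv_mem' := by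
    rintro _ ⟨h, hh, n, hn1, rfl⟩
    exact ⟨h⁻¹, H.inv_mem hh, h * n⁻¹ * h⁻¹, hn _ hh _ (N.inv_mem hn1), by group⟩

theorem mem_Hm (H N : Subgroup G) (hn : ∀ h ∈ H, ∀ n ∈ N, h * n * h⁻¹ ∈ N) (x : G) :
    x ∈ Hm H N hn ↔ ∃ h ∈ H, ∃ n ∈ N, x = h * n := Iff.rfl

theorem uniq (H N : Subgroup G) (hd : ∀ x ∈ N, x ∈ H → x = 1) (h h' n n' : G) (hh : h ∈ H)
    (hh' : h' ∈ H) (hn : n ∈ N) (hn' : n' ∈ N) (e : h * n = h' * n') : h = h' := by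
  have e1 : h'⁻¹ * h = n' * n⁻¹ := by
    have : h = h' * n' * n⁻¹ := by rw [← e]; group
    rw [this]; group
  have h1 : h'⁻¹ * h = 1 := hd _ (by rw [e1]; exact N.mul_mem hn' (N.inv_mem hn))
    (H.mul_mem (H.inv_mem hh') hh)
  exact (inv_mul_eq_one.1 h1).symm

theorem vr_of (H N : Subgroup G) (hn : ∀ h ∈ H, ∀ n ∈ N, h * n * h⁻¹ ∈ N)
    (hd : ∀ x ∈ N, x ∈ H → x = 1) (hfi : (Hm H N hn).FiniteIndex) : VR H := by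
  classical
  choose r hr n hn1 hrn using fun x : Hm H N hn => x.2
  refine ⟨Hm H N hn, hfi, fun h hh => ⟨h, hh, 1, N.one_mem, by group⟩,
    MonoidHom.mk' r (fun x y => ?_), hr, fun h hk hh => ?_⟩
  · have e : ((x * y : Hm H N hn) : G) = (r x * r y) * ((r y)⁻¹ * n x * (r y)⁻¹⁻¹ * n y) := by
      push_cast
      conv_lhs => rw [hrn x, hrn y]
      group
    exact uniq H N hd _ _ _ _ (hr _) (H.mul_mem (hr x) (hr y)) (hn1 _)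
      (N.mul_mem (hn _ (H.inv_mem (hr y)) _ (hn1 x)) (hn1 y)) ((hrn (x * y)).symm.trans e)
  · exact uniq H N hd _ _ _ _ (hr _) hh (hn1 _) N.one_mem
      ((hrn ⟨h, hk⟩).symm.trans (mul_one h).symm)

theorem of_vr (H : Subgroup G) (h : VR H) : ∃ (N : Subgroup G)
    (hn : ∀ h ∈ H, ∀ n ∈ N, h * n * h⁻¹ ∈ N), (∀ x ∈ N, x ∈ H → x = 1) ∧
      (Hm H N hn).FiniteIndex := by
  obtain ⟨K, hK, hHK, ρ, h1, h2⟩ := h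
  have hmem : ∀ x, x ∈ ρ.ker.map K.subtype ↔ ∃ hx : x ∈ K, ρ ⟨x, hx⟩ = 1 := by
    intro x
    constructor
    · rintro ⟨y, hy, rfl⟩
      exact ⟨y.2, hy⟩
    · rintro ⟨hx, hy⟩
      exact ⟨⟨x, hx⟩, hy, rfl⟩
  refine ⟨ρ.ker.map K.subtype, ?_, ?_, ?_⟩
  · intro h hh n hn
    rw [hmem] at hn ⊢
    obtain ⟨hnK, hn1⟩ := hn
    have hhK := hHK hh
    refine ⟨K.mul_mem (K.mul_mem hhK hnK) (K.inv_mem hhK), ?_⟩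
    have e : (⟨h * n * h⁻¹, K.mul_mem (K.mul_mem hhK hnK) (K.inv_mem hhK)⟩ : K) =
        ⟨h, hhK⟩ * ⟨n, hnK⟩ * (⟨h, hhK⟩ : K)⁻¹ := Subtype.ext rfl
    rw [e, map_mul, map_mul, hn1, map_inv]
    group
  · intro x hx hxH
    rw [hmem] at hx
    obtain ⟨hxK, hx1⟩ := hx
    rw [← h2 x hxK hxH, hx1]
  · refine @Subgroup.finiteIndex_of_le _ _ K _ hK ?_
    intro x hx
    have hr : ρ ⟨x, hx⟩ ∈ H := h1 ⟨x, hx⟩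
    refine ⟨ρ ⟨x, hx⟩, hr, (ρ ⟨x, hx⟩)⁻¹ * x, ?_, by group⟩
    rw [hmem]
    refine ⟨K.mul_mem (K.inv_mem (hHK hr)) hx, ?_⟩
    have e : (⟨(ρ ⟨x, hx⟩)⁻¹ * x, K.mul_mem (K.inv_mem (hHK hr)) hx⟩ : K) =
        (⟨ρ ⟨x, hx⟩, hHK hr⟩ : K)⁻¹ * ⟨x, hx⟩ := Subtype.ext rfl
    rw [e, map_mul, map_inv, h2 _ (hHK hr) hr]
    group

/-- finite covers -/
def FC (S : Subgroup G) : Prop := ∃ F : Set G, F.Finite ∧ ∀ g : G, ∃ f ∈ F, f⁻¹ * g ∈ S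

theorem fi_of_FC {S : Subgroup G} (h : FC S) : S.FiniteIndex := by
  obtain ⟨F, hF, hc⟩ := h
  rw [Subgroup.finiteIndex_iff_finite_quotient]
  have := hF.to_subtype
  apply Finite.of_surjective (fun f : F => ((f : G) : G ⧸ S))
  intro q
  obtain ⟨g, rfl⟩ := QuotientGroup.mk_surjective q
  obtain ⟨f, hf, hg⟩ := hc g
  exact ⟨⟨f, hf⟩, QuotientGroup.eq.2 hg⟩

theorem FC_of_fi (S : Subgroup G) [S.FiniteIndex] : FC S :=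
  ⟨Set.range (fun q : G ⧸ S => q.out), Set.finite_range _, fun g =>
    ⟨(g : G ⧸ S).out, ⟨_, rfl⟩, QuotientGroup.eq.1 (QuotientGroup.out_eq' _)⟩⟩

theorem cover2 (P Y : Subgroup G) (hP : FC P) :
    ∃ F : Set G, F.Finite ∧ F ⊆ Y ∧ ∀ y ∈ Y, ∃ f ∈ F, f⁻¹ * y ∈ P := by
  classical
  obtain ⟨F0, hF0, hc⟩ := hP
  have hch : ∀ f : G, ∃ y ∈ Y, (∃ y' ∈ Y, f⁻¹ * y' ∈ P) → f⁻¹ * y ∈ P := by
    intro f
    by_cases h : ∃ y' ∈ Y, f⁻¹ * y' ∈ P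
    · obtain ⟨y, hy, hy1⟩ := h
      exact ⟨y, hy, fun _ => hy1⟩
    · exact ⟨1, Y.one_mem, fun h' => absurd h' h⟩
  choose s hs hs1 using hch
  refine ⟨s '' F0, hF0.image _, ?_, ?_⟩
  · rintro _ ⟨f, -, rfl⟩
    exact hs f
  · intro y hy
    obtain ⟨f, hf, hf1⟩ := hc y
    refine ⟨s f, ⟨f, hf, rfl⟩, ?_⟩
    have h1 := hs1 f ⟨y, hy, hf1⟩
    have e : (s f)⁻¹ * y = (f⁻¹ * s f)⁻¹ * (f⁻¹ * y) := by group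
    rw [e]
    exact P.mul_mem (P.inv_mem h1) hf1

theorem ker_lemma (K A : Subgroup G) [hK : K.Normal] [hA : A.Normal] [hfi : K.FiniteIndex]
    (hc : ∀ k ∈ K, ∀ a ∈ A, k * a = a * k) (hAK : A ≤ K) (φ : K →* A) (e : ℕ) (he : 0 < e)
    (hφ : ∀ (a : G) (ha : a ∈ A), (φ ⟨a, hAK ha⟩ : G) = a ^ e)
    (htf : ∀ a ∈ A, ∀ n : ℕ, 0 < n → a ^ n = 1 → a = 1)
    (hpow : ∀ n : ℕ, 0 < n → ∃ F : Set G, F.Finite ∧ F ⊆ A ∧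
      ∀ a ∈ A, ∃ f ∈ F, ∃ b ∈ A, a = f * b ^ n) :
    ∃ N0 : Subgroup G, N0.Normal ∧ N0 ≤ K ∧ (∀ x ∈ N0, x ∈ A → x = 1) ∧
      ∃ F : Set G, F.Finite ∧ ∀ g : G, ∃ f ∈ F, ∃ a ∈ A, ∃ n ∈ N0, g = f * (a * n) := by
  classical
  obtain ⟨Φ, e', he', hΦ, hconj⟩ := avg K A hc hAK φ e he hφ
  have hmem : ∀ x, x ∈ Φ.ker.map K.subtype ↔ ∃ hx : x ∈ K, Φ ⟨x, hx⟩ = 1 := by
    intro x
    constructor
    · rintro ⟨y, hy, rfl⟩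
      exact ⟨y.2, hy⟩
    · rintro ⟨hx, hy⟩
      exact ⟨⟨x, hx⟩, hy, rfl⟩
  refine ⟨Φ.ker.map K.subtype, ⟨?_⟩, ?_, ?_, ?_⟩
  · intro n hn g
    rw [hmem] at hn ⊢
    obtain ⟨hnK, hn1⟩ := hn
    refine ⟨hK.conj_mem n hnK g, ?_⟩
    apply Subtype.ext
    rw [hconj g ⟨n, hnK⟩ ⟨g * n * g⁻¹, hK.conj_mem n hnK g⟩ rfl, hn1]
    push_cast
    group
  · intro x hx
    rw [hmem] at hx
    exact hx.1
  · intro x hx hxA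
    rw [hmem] at hx
    obtain ⟨hxK, hx1⟩ := hx
    apply htf x hxA e' he'
    rw [← hΦ x hxA, hx1]
    rfl
  · obtain ⟨F1, hF1, hc1⟩ := FC_of_fi K
    obtain ⟨F2, hF2, hF2A, hc2⟩ := hpow e' he'
    have hch : ∀ c : G, ∃ k ∈ K, (∃ (k' : G) (hk' : k' ∈ K), ∃ b ∈ A,
        (Φ ⟨k', hk'⟩ : G) = c * b ^ e') → ∃ (hk : k ∈ K), ∃ b ∈ A,
        (Φ ⟨k, hk⟩ : G) = c * b ^ e' := by
      intro c
      by_cases h : ∃ (k' : G) (hk' : k' ∈ K), ∃ b ∈ A, (Φ ⟨k', hk'⟩ : G) = c * b ^ e'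
      · obtain ⟨k, hk, hk1⟩ := h
        exact ⟨k, hk, fun _ => ⟨hk, hk1⟩⟩
      · exact ⟨1, K.one_mem, fun h' => absurd h' h⟩
    choose s hs hs1 using hch
    refine ⟨(fun p : G × G => p.1 * s p.2) '' (F1 ×ˢ F2), (hF1.prod hF2).image _, ?_⟩
    intro g
    obtain ⟨f1, hf1, hg1⟩ := hc1 g
    obtain ⟨c, hcF, b, hb, hcb⟩ := hc2 _ (Φ ⟨f1⁻¹ * g, hg1⟩).2
    obtain ⟨hk, b', hb', hkb⟩ := hs1 c ⟨_, hg1, b, hb, hcb⟩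
    have hx : (b * b'⁻¹) ∈ A := A.mul_mem hb (A.inv_mem hb')
    have hcA := hF2A hcF
    refine ⟨f1 * s c, ⟨(f1, c), ⟨hf1, hcF⟩, rfl⟩, b * b'⁻¹, hx,
      (b * b'⁻¹)⁻¹ * (s c)⁻¹ * (f1⁻¹ * g), ?_, by group⟩
    rw [hmem]
    have hm : (b * b'⁻¹)⁻¹ * (s c)⁻¹ * (f1⁻¹ * g) ∈ K :=
      K.mul_mem (K.mul_mem (K.inv_mem (hAK hx)) (K.inv_mem hk)) hg1
    refine ⟨hm, ?_⟩
    have e1 : (⟨(b * b'⁻¹)⁻¹ * (s c)⁻¹ * (f1⁻¹ * g), hm⟩ : K) =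
        (⟨b * b'⁻¹, hAK hx⟩ : K)⁻¹ * (⟨s c, hk⟩ : K)⁻¹ * ⟨f1⁻¹ * g, hg1⟩ := Subtype.ext rfl
    rw [e1, map_mul, map_mul, map_inv, map_inv]
    apply Subtype.ext
    push_cast
    rw [hΦ _ hx, hkb, hcb]
    have hcomm : ∀ u ∈ A, ∀ v ∈ A, u * v = v * u := fun u hu v hv => hc u (hAK hu) v hv
    have hcb' : Commute b b'⁻¹ := hcomm b hb b'⁻¹ (A.inv_mem hb')
    rw [hcb'.mul_pow, inv_pow]
    have h1 : Commute (b' ^ e') (b ^ e') := hcomm _ (A.pow_mem hb' _) _ (A.pow_mem hb _)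
    have h2 : (b ^ e' * (b' ^ e')⁻¹)⁻¹ * (c * b' ^ e')⁻¹ * (c * b ^ e') =
        (b' ^ e') * ((b ^ e')⁻¹ * (b' ^ e')⁻¹) * b ^ e' := by group
    rw [h2]
    have h3 : (b ^ e')⁻¹ * (b' ^ e')⁻¹ = (b' ^ e')⁻¹ * (b ^ e')⁻¹ := by
      rw [← mul_inv_rev, ← mul_inv_rev, h1.eq]
    rw [h3]
    group

end Pool.Agent.W881.LRX
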