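import Pool.Agent.W881.LRX.Main

/-! Property (LR): passing from `G / A` to `G`. -/

set_option autoImplicit false

namespace Pool.Agent.W881.LRX

variable {G : Type*} [Group G]

theorem main_core (K A : Subgroup G) [hK : K.Normal] [hA : A.Normal] [hfi : K.FiniteIndex]
    (hc : ∀ k ∈ K, ∀ a ∈ A, k * a = a * k) (hAK : A ≤ K) (φ : K →* A)
    (hφ : ∀ (a : G) (ha : a ∈ A), (φ ⟨a, hAK ha⟩ : G) = a) (m : ℕ)
    (ψ : A ≃* Multiplicative (Fin m → ℤ))
    (hQ : ∀ H' : Subgroup (G ⧸ A), H'.FG → VR H') (H : Subgroup G) (hH : H.FG) : VR H := by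
  classical
  have htf := tf A m ψ
  obtain ⟨-, -, -, -, -, hpow⟩ := proj_mul A m ψ A le_rfl
  obtain ⟨N0, hN0n, hN0K, hN0A, F1, hF1, hcov1⟩ := ker_lemma K A hc hAK φ 1 one_pos
    (fun a ha => by rw [hφ a ha, pow_one]) htf hpow
  obtain ⟨B, hBA, hBn, hBH, F3, hF3, hcov3⟩ := compl K A hc hAK φ hφ m ψ H
  let q : G →* G ⧸ A := QuotientGroup.mk' A
  have hHq : (H.map q).FG := by
    obtain ⟨S, hS⟩ := hH
    exact ⟨S.image q, by rw [Finset.coe_image, ← MonoidHom.map_closure, hS]⟩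
  obtain ⟨N', hn', hd', hfi'⟩ := of_vr (H.map q) (hQ _ hHq)
  let Nt : Subgroup G := N'.comap q
  have hAq : ∀ a ∈ A, q a = 1 := fun a ha => (QuotientGroup.eq_one_iff a).2 ha
  have hANt : ∀ a ∈ A, a ∈ Nt := by
    intro a ha
    show q a ∈ N'
    rw [hAq a ha]
    exact N'.one_mem
  have hNtH : ∀ h ∈ H, ∀ n ∈ Nt, h * n * h⁻¹ ∈ Nt := by
    intro h hh n hn
    show q (h * n * h⁻¹) ∈ N'
    rw [map_mul, map_mul, map_inv]
    exact hn' _ ⟨h, hh, rfl⟩ _ hn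
  let N1 : Subgroup G := N0 ⊓ Nt
  have hN1H : ∀ h ∈ H, ∀ n ∈ N1, h * n * h⁻¹ ∈ N1 := fun h hh n hn =>
    ⟨hN0n.conj_mem n hn.1 h, hNtH h hh n hn.2⟩
  have hN1B : ∀ b ∈ B, ∀ n ∈ N1, b * n * b⁻¹ ∈ N1 := fun b hb n hn =>
    ⟨hN0n.conj_mem n hn.1 b, Nt.mul_mem (Nt.mul_mem (hANt b (hBA hb)) hn.2)
      (Nt.inv_mem (hANt b (hBA hb)))⟩
  let N : Subgroup G := Hm B N1 hN1B
  have hNn : ∀ h ∈ H, ∀ n ∈ N, h * n * h⁻¹ ∈ N := by
    rintro h hh _ ⟨b, hb, n, hn, rfl⟩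
    exact ⟨h * b * h⁻¹, hBn h hh b hb, h * n * h⁻¹, hN1H h hh n hn, by group⟩
  refine vr_of H N hNn ?_ (fi_of_FC ?_)
  · rintro _ ⟨b, hb, n, hn, rfl⟩ hx
    have h1 : q n = q (b * n) := by rw [map_mul, hAq b (hBA hb), one_mul]
    have h2 : q n = 1 := hd' (q n) hn.2 (by rw [h1]; exact ⟨b * n, hx, rfl⟩)
    have h3 : n ∈ A := (QuotientGroup.eq_one_iff n).1 h2
    have h4 : n = 1 := hN0A n hn.1 h3
    rw [h4, mul_one] at hx ⊢
    exact hBH b hb hx
  · obtain ⟨F0, hF0, hcov0⟩ := FC_of_fi (Hm (H.map q) N' hn')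
    obtain ⟨F2, hF2, hF2N, hcov2⟩ := cover2 (Hm A N0 (fun a _ n hn => hN0n.conj_mem n hn a)) Nt
      ⟨F1, hF1, fun g => by
        obtain ⟨f1, hf1, a, ha, n, hn, e⟩ := hcov1 g
        exact ⟨f1, hf1, a, ha, n, hn, by rw [e]; group⟩⟩
    refine ⟨(fun p : (G ⧸ A) × G × G => (Quotient.out p.1) * p.2.1 * p.2.2) ''
      (F0 ×ˢ (F2 ×ˢ F3)), (hF0.prod (hF2.prod hF3)).image _, fun g => ?_⟩
    obtain ⟨f, hf, h', ⟨h, hh, rfl⟩, n', hn1, e⟩ := hcov0 (q g)
    have hqf : q (Quotient.out f) = f := QuotientGroup.out_eq' f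
    have hy : (Quotient.out f)⁻¹ * g * h⁻¹ ∈ Nt := by
      show q ((Quotient.out f)⁻¹ * g * h⁻¹) ∈ N'
      rw [map_mul, map_mul, map_inv, map_inv, hqf, e]
      exact hn' _ ⟨h, hh, rfl⟩ _ hn1
    obtain ⟨f2, hf2, a, ha, n0, hn0, e2⟩ := hcov2 _ hy
    have hn0t : n0 ∈ Nt := by
      have : n0 = a⁻¹ * (f2⁻¹ * ((Quotient.out f)⁻¹ * g * h⁻¹)) := by rw [e2]; group
      rw [this]
      exact Nt.mul_mem (Nt.inv_mem (hANt a ha)) (Nt.mul_mem (Nt.inv_mem (hF2N hf2)) hy)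
    obtain ⟨f3, hf3, b, hb, c, hcc, e3⟩ := hcov3 a ha
    refine ⟨_, ⟨(f, f2, f3), ⟨hf, hf2, hf3⟩, rfl⟩, ?_⟩
    have hch : c * h ∈ H := H.mul_mem hcc.1 hh
    refine ⟨c * h, hch, ((c * h)⁻¹ * b * (c * h)⁻¹⁻¹) * (h⁻¹ * n0 * h⁻¹⁻¹),
      ⟨_, hBn _ (H.inv_mem hch) b hb, _, hN1H _ (H.inv_mem hh) n0 ⟨hn0, hn0t⟩, rfl⟩, ?_⟩
    show ((Quotient.out f) * f2 * f3)⁻¹ * g = _
    have e4 : g = (Quotient.out f) * f2 * (a * n0) * h := by
      rw [← e2]; group
    rw [e4, e3]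
    group

/-- The case of a normal free abelian subgroup of finite rank with a centralizer of finite index,
and a free subgroup of finite index in the quotient. -/
theorem ext_free (A : Subgroup G) [hA : A.Normal] (m : ℕ)
    (ψ : A ≃* Multiplicative (Fin m → ℤ)) (hcen : (Subgroup.centralizer (A : Set G)).FiniteIndex)
    (F : Subgroup (G ⧸ A)) (hF : F.FiniteIndex) (hFf : IsFreeGroup F)
    (hQ : ∀ H' : Subgroup (G ⧸ A), H'.FG → VR H') (H : Subgroup G) (hH : H.FG) : VR H := by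
  classical
  let q : G →* G ⧸ A := QuotientGroup.mk' A
  have hcomm : ∀ a ∈ A, ∀ b ∈ A, a * b = b * a := by
    intro a ha b hb
    have h1 : (⟨a, ha⟩ : A) * ⟨b, hb⟩ = ⟨b, hb⟩ * ⟨a, ha⟩ := by
      apply ψ.injective
      rw [map_mul, map_mul, mul_comm]
    exact congrArg (fun w : A => (w : G)) h1
  let F' : Subgroup (G ⧸ A) := F.normalCore
  have hF'F : F' ≤ F := F.normalCore_le
  have hF'f : IsFreeGroup F' := by
    have h1 : IsFreeGroup (F'.subgroupOf F) := subgroupIsFreeOfIsFree _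
    exact IsFreeGroup.ofMulEquiv (Subgroup.subgroupOfEquivOfLe hF'F)
  let K : Subgroup G := (Subgroup.centralizer (A : Set G)) ⊓ (F'.comap q)
  have hKn : K.Normal := by
    have h1 : (Subgroup.centralizer (A : Set G)).Normal := inferInstance
    have h2 : (F'.comap q).Normal := inferInstance
    exact Subgroup.normal_inf_normal _ _
  have hF'fi : F'.FiniteIndex := Subgroup.finiteIndex_normalCore F
  have hcfi : (F'.comap q).FiniteIndex := by
    apply fi_of_FC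
    obtain ⟨F0, hF0, hc0⟩ := FC_of_fi F'
    refine ⟨(fun x : G ⧸ A => Quotient.out x) '' F0, hF0.image _, fun g => ?_⟩
    obtain ⟨f, hf, hfg⟩ := hc0 (q g)
    refine ⟨_, ⟨f, hf, rfl⟩, ?_⟩
    show q ((Quotient.out f)⁻¹ * g) ∈ F'
    have hqf : q (Quotient.out f) = f := QuotientGroup.out_eq' f
    rw [map_mul, map_inv, hqf]
    exact hfg
  have hKfi : K.FiniteIndex := inferInstance
  have hAK : A ≤ K := by
    intro a ha
    refine Subgroup.mem_inf.2 ⟨?_, ?_⟩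
    · rw [Subgroup.mem_centralizer_iff]
      intro b hb
      exact hcomm b hb a ha
    · show q a ∈ F'
      have : q a = 1 := (QuotientGroup.eq_one_iff a).2 ha
      rw [this]
      exact F'.one_mem
  have hc : ∀ k ∈ K, ∀ a ∈ A, k * a = a * k := by
    intro k hk a ha
    exact (Subgroup.mem_centralizer_iff.1 hk.1 a ha).symm
  -- the image of `K` in the free group
  let p : K →* F' :=
    { toFun := fun k => ⟨q k, k.2.2⟩
      map_one' := Subtype.ext (map_one q)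
      map_mul' := fun x y => Subtype.ext (map_mul q _ _) }
  have hR : IsFreeGroup p.range := subgroupIsFreeOfIsFree _
  -- a section
  obtain ⟨σ, hσ⟩ : ∃ σ : p.range →* K, ∀ x, p (σ x) = x := by
    let e := IsFreeGroup.toFreeGroup p.range
    have hs : ∀ i : IsFreeGroup.Generators p.range, ∃ k : K, p k = (e.symm (FreeGroup.of i) : p.range) := by
      intro i
      obtain ⟨k, hk⟩ := (e.symm (FreeGroup.of i) : p.range).2
      exact ⟨k, hk⟩
    choose s hs using hs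
    let σ0 : FreeGroup (IsFreeGroup.Generators p.range) →* K := FreeGroup.lift s
    refine ⟨σ0.comp e.toMonoidHom, fun x => ?_⟩
    have h1 : (p.comp σ0) = (p.range.subtype).comp e.symm.toMonoidHom := by
      apply FreeGroup.ext_hom
      intro i
      show p (FreeGroup.lift s (FreeGroup.of i)) = _
      rw [FreeGroup.lift_apply_of, hs]
      rfl
    have h2 := congrArg (fun g : FreeGroup (IsFreeGroup.Generators p.range) →* F' => g (e x)) h1
    have h3 : (p.range.subtype) (e.symm (e x)) = x := by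
      rw [MulEquiv.symm_apply_apply]
      rfl
    exact h2.trans h3
  have hker : ∀ k : K, p k = 1 → (k : G) ∈ A := by
    intro k hk
    have h1 : q k = 1 := congrArg (fun w : F' => (w : G ⧸ A)) hk
    exact (QuotientGroup.eq_one_iff (k : G)).1 h1
  have hφmem : ∀ k : K, ((k * (σ ⟨p k, k, rfl⟩)⁻¹ : K) : G) ∈ A := by
    intro k
    apply hker
    rw [map_mul, map_inv, hσ]
    exact mul_inv_cancel _
  let φ : K →* A :=
    { toFun := fun k => ⟨((k * (σ ⟨p k, k, rfl⟩)⁻¹ : K) : G), hφmem k⟩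
      map_one' := by
        apply Subtype.ext
        have e1 : (⟨p 1, 1, rfl⟩ : p.range) = 1 := Subtype.ext (map_one p)
        show (((1 : K) * (σ ⟨p 1, 1, rfl⟩)⁻¹ : K) : G) = 1
        rw [e1, map_one]
        simp
      map_mul' := fun x y => by
        apply Subtype.ext
        have e1 : (⟨p (x * y), x * y, rfl⟩ : p.range) = ⟨p x, x, rfl⟩ * ⟨p y, y, rfl⟩ :=
          Subtype.ext (map_mul p x y)
        show (((x * y) * (σ ⟨p (x * y), x * y, rfl⟩)⁻¹ : K) : G) =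
          ((x * (σ ⟨p x, x, rfl⟩)⁻¹ : K) : G) * ((y * (σ ⟨p y, y, rfl⟩)⁻¹ : K) : G)
        rw [e1, map_mul]
        have h1 := hφmem y
        have h2 := hc _ (σ ⟨p x, x, rfl⟩).2 _ h1
        push_cast at h2 ⊢
        have e2 : (x : G) * y * ((σ ⟨p x, x, rfl⟩ : K) * (σ ⟨p y, y, rfl⟩ : K) : G)⁻¹ =
            x * ((y : G) * ((σ ⟨p y, y, rfl⟩ : K) : G)⁻¹) * ((σ ⟨p x, x, rfl⟩ : K) : G)⁻¹ := by
          group
        rw [e2]
        have e3 : ((y : G) * ((σ ⟨p y, y, rfl⟩ : K) : G)⁻¹) =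
            ((σ ⟨p x, x, rfl⟩ : K) : G)⁻¹ * (((y : G) * ((σ ⟨p y, y, rfl⟩ : K) : G)⁻¹)) *
              ((σ ⟨p x, x, rfl⟩ : K) : G) := by
          rw [mul_assoc, ← h2]; group
        conv_lhs => rw [e3]
        group }
  have hφ : ∀ (a : G) (ha : a ∈ A), (φ ⟨a, hAK ha⟩ : G) = a := by
    intro a ha
    have h1 : p ⟨a, hAK ha⟩ = 1 := by
      apply Subtype.ext
      exact (QuotientGroup.eq_one_iff a).2 ha
    have e1 : (⟨p ⟨a, hAK ha⟩, ⟨a, hAK ha⟩, rfl⟩ : p.range) = 1 := Subtype.ext h1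
    show (((⟨a, hAK ha⟩ : K) * (σ ⟨p ⟨a, hAK ha⟩, ⟨a, hAK ha⟩, rfl⟩)⁻¹ : K) : G) = a
    rw [e1, map_one]
    simp
  exact main_core K A hc hAK φ hφ m ψ hQ H hH

end Pool.Agent.W881.LRX
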