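import Mathlib

/-! Property (LR): elements of a free group commuting with powers of two generators. -/

set_option autoImplicit false

namespace Pool.Agent.W881.LRX

open FreeGroup

variable {X : Type*} [DecidableEq X]

theorem comm_pow (a : X) (n : ℕ) (hn : 0 < n) : ∀ (N : ℕ) (f : FreeGroup X),
    f.toWord.length = N → f * (of a) ^ n = (of a) ^ n * f → f ∈ Subgroup.zpowers (of a) := by
  intro N
  induction N with
  | zero =>
    intro f hf _
    have h1 : f.toWord = [] := List.eq_nil_of_length_eq_zero hf
    rw [FreeGroup.toWord_eq_nil_iff] at h1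
    rw [h1]
    exact one_mem _
  | succ N ih =>
    intro f hf hcomm
    obtain ⟨⟨x, ε⟩, L, hL⟩ : ∃ (p : X × Bool) (L : List (X × Bool)), f.toWord = p :: L := by
      cases h : f.toWord with
      | nil => rw [h] at hf; simp at hf
      | cons p L => exact ⟨p, L, rfl⟩
    have hred : IsReduced f.toWord := isReduced_toWord
    by_cases hx : x = a
    · subst hx
      have hLred : IsReduced L := by
        rw [hL] at hred
        unfold FreeGroup.IsReduced at hred ⊢
        exact (List.isChain_cons.1 hred).2
      have hf' : (FreeGroup.mk L).toWord = L := by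
        rw [FreeGroup.toWord_mk]
        exact hLred.reduce_eq
      have hfe : f = FreeGroup.mk [(x, ε)] * FreeGroup.mk L := by
        rw [FreeGroup.mul_mk, ← FreeGroup.mk_toWord (x := f), hL]
        rfl
      have hg : FreeGroup.mk [(x, ε)] ∈ Subgroup.zpowers (of x) := by
        cases ε
        · have : FreeGroup.mk [(x, false)] = (of x)⁻¹ := rfl
          rw [this]
          exact inv_mem (Subgroup.mem_zpowers _)
        · exact Subgroup.mem_zpowers _
      obtain ⟨k, hk⟩ := Subgroup.mem_zpowers_iff.1 hg
      have hcg : Commute (FreeGroup.mk [(x, ε)]) ((of x) ^ n) := by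
        rw [← hk]
        exact ((Commute.refl (of x)).zpow_left k).pow_right n
      have hcf : Commute f ((of x) ^ n) := hcomm
      have hcL : Commute (FreeGroup.mk L) ((of x) ^ n) := by
        have e : FreeGroup.mk L = (FreeGroup.mk [(x, ε)])⁻¹ * f := by
          rw [hfe]; group
        rw [e]
        exact (hcg.inv_left).mul_left hcf
      have h1 := ih (FreeGroup.mk L) (by
        rw [hf']
        rw [hL] at hf
        simpa using hf) hcL
      rw [hfe]
      exact mul_mem hg h1
    · exfalso
      have h1 := congrArg FreeGroup.toWord hcomm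
      rw [FreeGroup.toWord_mul, FreeGroup.toWord_mul, FreeGroup.toWord_of_pow] at h1
      have h2 : IsReduced (List.replicate n (a, true) ++ f.toWord) := by
        unfold FreeGroup.IsReduced at hred ⊢
        rw [List.isChain_append]
        refine ⟨?_, hred, ?_⟩
        · rw [List.isChain_iff_getElem]
          intro i hi
          simp
        · intro u hu v hv huv
          exfalso
          have hu' : u = (a, true) := by
            have := List.mem_of_getLast? hu
            exact List.eq_of_mem_replicate this
          have hv' : v = (x, ε) := by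
            rw [hL] at hv
            simpa using hv.symm
          rw [hu', hv'] at huv
          exact hx huv.symm
      rw [h2.reduce_eq] at h1
      have h3 : List.Sublist (reduce (f.toWord ++ List.replicate n (a, true)))
          (f.toWord ++ List.replicate n (a, true)) := Red.sublist reduce.red
      have h4 := h3.eq_of_length (by rw [h1]; simp [add_comm])
      rw [h1, hL] at h4
      obtain ⟨n', rfl⟩ : ∃ n', n = n' + 1 := ⟨n - 1, by omega⟩
      rw [List.replicate_succ] at h4
      simp only [List.cons_append, List.cons.injEq, Prod.mk.injEq] at h4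
      exact hx h4.1.1.symm

theorem two (a b : X) (hab : a ≠ b) (n : ℕ) (hn : 0 < n) (f : FreeGroup X)
    (h1 : f * (of a) ^ n = (of a) ^ n * f) (h2 : f * (of b) ^ n = (of b) ^ n * f) : f = 1 := by
  obtain ⟨k, hk⟩ := Subgroup.mem_zpowers_iff.1 (comm_pow a n hn _ f rfl h1)
  obtain ⟨l, hl⟩ := Subgroup.mem_zpowers_iff.1 (comm_pow b n hn _ f rfl h2)
  have e1 : FreeGroup.lift (fun x => if x = a then Multiplicative.ofAdd (1 : ℤ) else 1) f =
      Multiplicative.ofAdd k := by
    rw [← hk, map_zpow, FreeGroup.lift_apply_of, if_pos rfl, ← ofAdd_zsmul]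
    simp
  have e2 : FreeGroup.lift (fun x => if x = a then Multiplicative.ofAdd (1 : ℤ) else 1) f = 1 := by
    rw [← hl, map_zpow, FreeGroup.lift_apply_of, if_neg (Ne.symm hab), one_zpow]
  have hk0 : k = 0 := by
    rw [e2] at e1
    exact (ofAdd_eq_one.1 e1.symm)
  rw [← hk, hk0, zpow_zero]

end Pool.Agent.W881.LRX
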