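import Pool.Agent.W881.LRX.Core

/-! Property (LR): abelian normal subgroups that are virtual direct factors. -/

set_option autoImplicit false

namespace Pool.Agent.W881.LRX

variable {G : Type*} [Group G]

/-- Subgroups of a lattice, multiplicatively. -/
theorem proj_mul (A : Subgroup G) (m : ℕ) (ψ : A ≃* Multiplicative (Fin m → ℤ)) (C : Subgroup G)
    (hC : C ≤ A) : ∃ (π : A →* A) (f : ℕ), 0 < f ∧ (∀ a : A, (π a : G) ∈ C) ∧
      (∀ a : A, (a : G) ∈ C → π a = a ^ f) ∧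
      ∀ n : ℕ, 0 < n → ∃ F : Set G, F.Finite ∧ F ⊆ C ∧
        ∀ a ∈ C, ∃ f ∈ F, ∃ b ∈ C, a = f * b ^ n := by
  let N : Submodule ℤ (Fin m → ℤ) := AddSubgroup.toIntSubmodule
    { carrier := {v | ((ψ.symm (Multiplicative.ofAdd v) : A) : G) ∈ C}
      add_mem' := by
        intro a b ha hb
        show ((ψ.symm (Multiplicative.ofAdd (a + b)) : A) : G) ∈ C
        rw [ofAdd_add, map_mul]
        exact C.mul_mem ha hb
      zero_mem' := by
        show ((ψ.symm (Multiplicative.ofAdd 0) : A) : G) ∈ C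
        rw [ofAdd_zero, map_one]
        exact C.one_mem
      neg_mem' := by
        intro a ha
        show ((ψ.symm (Multiplicative.ofAdd (-a)) : A) : G) ∈ C
        rw [ofAdd_neg, map_inv]
        exact C.inv_mem ha }
  have hN : ∀ v, v ∈ N ↔ ((ψ.symm (Multiplicative.ofAdd v) : A) : G) ∈ C := fun v => Iff.rfl
  obtain ⟨π, f, hf, h1, h2, h3⟩ := proj m N
  refine ⟨ψ.symm.toMonoidHom.comp ((AddMonoidHom.toMultiplicative π.toAddMonoidHom).comp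
    ψ.toMonoidHom), f, hf, ?_, ?_, ?_⟩
  · intro a
    exact (hN _).1 (h1 (Multiplicative.toAdd (ψ a)))
  · intro a ha
    apply ψ.injective
    show ψ (ψ.symm (Multiplicative.ofAdd (π (Multiplicative.toAdd (ψ a))))) = ψ (a ^ f)
    rw [MulEquiv.apply_symm_apply, h2 _ ((hN _).2 (by
      rw [ofAdd_toAdd, MulEquiv.symm_apply_apply]; exact ha)), map_pow, ofAdd_nsmul, ofAdd_toAdd]
  · intro n hn
    obtain ⟨F, hF, hFN, hF1⟩ := h3 n hn
    refine ⟨(fun v => ((ψ.symm (Multiplicative.ofAdd v) : A) : G)) '' F, hF.image _, ?_, ?_⟩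
    · rintro _ ⟨v, hv, rfl⟩
      exact (hN v).1 (hFN hv)
    · intro a ha
      have haA := hC ha
      obtain ⟨y, hy, z, hz, hyz⟩ := hF1 (Multiplicative.toAdd (ψ ⟨a, haA⟩)) ((hN _).2 (by
        rw [ofAdd_toAdd, MulEquiv.symm_apply_apply]; exact ha))
      refine ⟨_, ⟨y, hy, rfl⟩, _, (hN z).1 hz, ?_⟩
      have e : (⟨a, haA⟩ : A) = ψ.symm (Multiplicative.ofAdd y) *
          (ψ.symm (Multiplicative.ofAdd z)) ^ n := by
        apply ψ.injective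
        rw [map_mul, map_pow, MulEquiv.apply_symm_apply, MulEquiv.apply_symm_apply,
          ← ofAdd_nsmul, ← ofAdd_add, ← hyz, ofAdd_toAdd]
      exact congrArg (fun w : A => (w : G)) e

theorem tf (A : Subgroup G) (m : ℕ) (ψ : A ≃* Multiplicative (Fin m → ℤ)) :
    ∀ a ∈ A, ∀ n : ℕ, 0 < n → a ^ n = 1 → a = 1 := by
  intro a ha n hn h
  have h1 : (⟨a, ha⟩ : A) ^ n = 1 := Subtype.ext h
  have h2 : ψ (⟨a, ha⟩ : A) ^ n = 1 := by rw [← map_pow, h1, map_one]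
  have h3 : n • Multiplicative.toAdd (ψ (⟨a, ha⟩ : A)) = 0 := by
    rw [← toAdd_pow, h2, toAdd_one]
  have h4 : Multiplicative.toAdd (ψ (⟨a, ha⟩ : A)) = 0 := by
    funext i
    have h5 := congrFun h3 i
    simp only [Pi.smul_apply, nsmul_eq_mul, Pi.zero_apply, mul_eq_zero] at h5
    rcases h5 with h5 | h5
    · exfalso
      have : n = 0 := by exact_mod_cast h5
      omega
    · exact h5
  have h6 : ψ (⟨a, ha⟩ : A) = 1 := by
    rw [← toAdd_eq_zero]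
    exact h4
  have h7 : (⟨a, ha⟩ : A) = 1 := ψ.injective (by rw [h6, map_one])
  exact congrArg (fun w : A => (w : G)) h7

/-- a complement of `H ∩ A` in `A` -/
theorem compl (K A : Subgroup G) [hK : K.Normal] [hA : A.Normal] [hfi : K.FiniteIndex]
    (hc : ∀ k ∈ K, ∀ a ∈ A, k * a = a * k) (hAK : A ≤ K) (φ : K →* A)
    (hφ : ∀ (a : G) (ha : a ∈ A), (φ ⟨a, hAK ha⟩ : G) = a) (m : ℕ)
    (ψ : A ≃* Multiplicative (Fin m → ℤ)) (H : Subgroup G) :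
    ∃ B : Subgroup G, B ≤ A ∧ (∀ h ∈ H, ∀ b ∈ B, h * b * h⁻¹ ∈ B) ∧ (∀ x ∈ B, x ∈ H → x = 1) ∧
      ∃ F : Set G, F.Finite ∧ ∀ a ∈ A, ∃ f ∈ F, ∃ b ∈ B, ∃ c ∈ H ⊓ A, a = f * (b * c) := by
  classical
  have htf := tf A m ψ
  obtain ⟨π, f, hf, hπ1, hπ2, hpow⟩ := proj_mul A m ψ (H ⊓ A) inf_le_right
  set L : Subgroup G := H ⊔ A with hL
  have hHL : H ≤ L := le_sup_left
  have hAL : A ≤ L := le_sup_right
  have hmemL : ∀ l ∈ L, ∃ h ∈ H, ∃ a ∈ A, l = h * a := by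
    intro l hl
    have h1 : l ∈ ((H ⊔ A : Subgroup G) : Set G) := hl
    rw [Subgroup.mul_normal] at h1
    obtain ⟨h, hh, a, ha, rfl⟩ := h1
    exact ⟨h, hh, a, ha, rfl⟩
  have hCn : ∀ l ∈ L, ∀ c ∈ H ⊓ A, l * c * l⁻¹ ∈ H ⊓ A := by
    intro l hl c hcc
    obtain ⟨h, hh, a, ha, rfl⟩ := hmemL l hl
    have e : (h * a) * c * (h * a)⁻¹ = h * (a * c * a⁻¹) * h⁻¹ := by group
    have e1 : a * c * a⁻¹ = c := by
      rw [hc a (hAK ha) c hcc.2]; group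
    rw [e, e1]
    exact ⟨H.mul_mem (H.mul_mem hh hcc.1) (H.inv_mem hh), hA.conj_mem c hcc.2 h⟩
  let K' : Subgroup L := K.subgroupOf L
  let C' : Subgroup L := (H ⊓ A).subgroupOf L
  have hKn : K'.Normal := hK.subgroupOf L
  have hC'n : C'.Normal := ⟨fun c hcc l => by
    rw [Subgroup.mem_subgroupOf] at hcc ⊢
    exact hCn l l.2 c hcc⟩
  have hK'fi : K'.FiniteIndex := Subgroup.instFiniteIndex_subgroupOf K L
  have hCK' : C' ≤ K' := by
    intro c hcc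
    rw [Subgroup.mem_subgroupOf] at hcc ⊢
    exact hAK hcc.2
  have hc' : ∀ k ∈ K', ∀ a ∈ C', k * a = a * k := by
    intro k hk a ha
    rw [Subgroup.mem_subgroupOf] at hk ha
    apply Subtype.ext
    exact hc k hk a ha.2
  let φ' : K' →* C' :=
    { toFun := fun x => ⟨⟨(π (φ ⟨((x : L) : G), x.2⟩) : G), hAL (π _).2⟩, hπ1 _⟩
      map_one' := by
        apply Subtype.ext
        apply Subtype.ext
        show (π (φ 1) : G) = 1
        rw [map_one, map_one]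
        rfl
      map_mul' := fun x y => by
        apply Subtype.ext
        apply Subtype.ext
        show (π (φ (⟨((x : L) : G), x.2⟩ * ⟨((y : L) : G), y.2⟩)) : G) = _
        rw [map_mul, map_mul]
        rfl }
  have hφ' : ∀ (a : L) (ha : a ∈ C'), (φ' ⟨a, hCK' ha⟩ : L) = a ^ f := by
    intro a ha
    apply Subtype.ext
    have ha' : (a : G) ∈ H ⊓ A := ha
    have e1 : φ ⟨(a : G), hAK ha'.2⟩ = ⟨(a : G), ha'.2⟩ := Subtype.ext (hφ _ ha'.2)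
    show (π (φ ⟨(a : G), hAK ha'.2⟩) : G) = ((a ^ f : L) : G)
    rw [e1, hπ2 ⟨(a : G), ha'.2⟩ ha']
    rfl
  have htf' : ∀ a ∈ C', ∀ n : ℕ, 0 < n → a ^ n = 1 → a = 1 := by
    intro a ha n hn h
    have ha' : (a : G) ∈ H ⊓ A := ha
    apply Subtype.ext
    refine htf (a : G) ha'.2 n hn ?_
    have := congrArg (fun w : L => (w : G)) h
    simpa using this
  have hpow' : ∀ n : ℕ, 0 < n → ∃ F : Set L, F.Finite ∧ F ⊆ C' ∧
      ∀ a ∈ C', ∃ f ∈ F, ∃ b ∈ C', a = f * b ^ n := by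
    intro n hn
    obtain ⟨F, hF, hFC, hF1⟩ := hpow n hn
    refine ⟨{x : L | (x : G) ∈ F}, hF.preimage (Subtype.val_injective.injOn), ?_, ?_⟩
    · intro x hx
      exact hFC hx
    · intro a ha
      obtain ⟨y, hy, b, hb, e⟩ := hF1 (a : G) ha
      refine ⟨⟨y, hAL (hFC hy).2⟩, hy, ⟨b, hAL hb.2⟩, hb, ?_⟩
      apply Subtype.ext
      exact e
  obtain ⟨N0, hN0n, hN0K, hN0C, F, hF, hcov⟩ := @ker_lemma L _ K' C' hKn hC'n hK'fi hc' hCK' φ' f hf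
    hφ' htf' hpow'
  have hmB : ∀ x, x ∈ (N0.map L.subtype) ⊓ A ↔ ∃ hx : x ∈ L, (⟨x, hx⟩ : L) ∈ N0 ∧ x ∈ A := by
    intro x
    constructor
    · rintro ⟨⟨y, hy, rfl⟩, hxA⟩
      exact ⟨y.2, hy, hxA⟩
    · rintro ⟨hx, hy, hxA⟩
      exact ⟨⟨⟨x, hx⟩, hy, rfl⟩, hxA⟩
  refine ⟨(N0.map L.subtype) ⊓ A, inf_le_right, ?_, ?_, ?_⟩
  · intro h hh b hb
    rw [hmB] at hb ⊢
    obtain ⟨hbL, hbN, hbA⟩ := hb
    exact ⟨L.mul_mem (L.mul_mem (hHL hh) hbL) (L.inv_mem (hHL hh)),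
      hN0n.conj_mem _ hbN ⟨h, hHL hh⟩, hA.conj_mem b hbA h⟩
  · intro x hx hxH
    rw [hmB] at hx
    obtain ⟨hxL, hxN, hxA⟩ := hx
    have h1 := hN0C ⟨x, hxL⟩ hxN (show x ∈ H ⊓ A from ⟨hxH, hxA⟩)
    exact congrArg (fun w : L => (w : G)) h1
  · -- a finite cover of `A` by left translates of `C' N0 ∩ A`
    have hD : ∃ F1 : Set L, F1.Finite ∧ F1 ⊆ (A.subgroupOf L : Set L) ∧
        ∀ y ∈ A.subgroupOf L, ∃ f ∈ F1, f⁻¹ * y ∈ Hm C' N0 (fun c _ n hn => hN0n.conj_mem n hn c) := by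
      apply cover2
      refine ⟨F, hF, fun g => ?_⟩
      obtain ⟨f1, hf1, c, hcc, n, hn, e⟩ := hcov g
      refine ⟨f1, hf1, c, hcc, n, hn, ?_⟩
      rw [e]; group
    obtain ⟨F1, hF1, hF1A, hF1c⟩ := hD
    refine ⟨(fun x : L => (x : G)) '' F1, hF1.image _, ?_⟩
    intro a ha
    obtain ⟨f1, hf1, c, hcc, n, hn, e⟩ := hF1c ⟨a, hAL ha⟩ ha
    have hf1A : (f1 : G) ∈ A := hF1A hf1
    have hcA : ((c : L) : G) ∈ H ⊓ A := hcc
    have e1 : (f1 : G)⁻¹ * a = (c : G) * (n : G) := congrArg (fun w : L => (w : G)) e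
    have hnA : (n : G) ∈ A := by
      have : (n : G) = (c : G)⁻¹ * ((f1 : G)⁻¹ * a) := by rw [e1]; group
      rw [this]
      exact A.mul_mem (A.inv_mem hcA.2) (A.mul_mem (A.inv_mem hf1A) ha)
    refine ⟨(f1 : G), ⟨f1, hf1, rfl⟩, (n : G), ?_, (c : G), hcA, ?_⟩
    · rw [hmB]
      exact ⟨n.2, hn, hnA⟩
    · rw [← hc (c : G) (hAK hcA.2) (n : G) hnA, ← e1]
      group

end Pool.Agent.W881.LRX
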